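import Pool.Agent.Lib.MP_547e2f_an.Eval

/-!
Artin approximation for formal holomorphic maps from a real analytic CR submanifold of finite type
into a real analytic set.
-/

namespace Pool.Agent.Results.MP_547e2f_an.Approx

open Pool.Agent.Lib.MP_547e2f_an Pool.Agent.Lib.MP_547e2f_an.St MvPowerSeries

theorem result {n N d d' : ℕ} (ρ : Fin d → Ser n) (ρ' : Fin d' → Ser N)
    (hM : IsDefining ρ) (hCR : IsCR ρ) (hft : FiniteType ρ) (hM' : ∀ i, Convergent (ρ' i))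
    (f : Fin N → MvPowerSeries (Fin n) ℂ) (hf : ∀ j, constantCoeff (f j) = 0)
    (hmap : MapsFormally ρ ρ' f) (ℓ : ℕ) :
    ∃ F : Fin N → MvPowerSeries (Fin n) ℂ, (∀ j, Convergent (F j)) ∧
      (∀ (j : Fin N) (α : Fin n →₀ ℕ), α.degree ≤ ℓ → coeff α (F j) = coeff α (f j)) ∧
      ∀ᶠ z in nhds (0 : Fin n → ℂ), z ∈ zeroSet ρ → (fun j => value (F j) z) ∈ zeroSet ρ' := by
  have := fun i => cv_iff.mp (hM' i)
  have := fun i => cv_iff.mp (hM.conv i)
  have : ∀ j, Z (f j) := fun j => ⟨hf j⟩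
  obtain ⟨F, h1, _, h2, h3⟩ := formal ρ' hM hCR hft f hmap ℓ
  refine ⟨F, fun j => cv_iff.mpr (h1 j), fun j α h => ?_, maps ρ ρ' F h3⟩
  rw [← sub_eq_zero, ← map_sub]
  exact h2 j α (by rw [← Finsupp.degree_eq_weight_one]; omega)

end Pool.Agent.Results.MP_547e2f_an.Approx
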