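import Pool.Agent.Results.MP_547e2f_an.NonCR

/-!
Artin approximation for formal maps between real analytic submanifolds of finite type, for both
choices of the condition on the source: it holds if the source is CR and fails in general.
-/

namespace Pool.Agent.Results.MP_547e2f_an.Both

open Pool.Agent.Lib.MP_547e2f_an.St MvPowerSeries

theorem result : (∀ {n N d d' : ℕ} (ρ : Fin d → Ser n) (ρ' : Fin d' → Ser N), IsDefining ρ →
    IsCR ρ → FiniteType ρ → (∀ i, Convergent (ρ' i)) → ∀ f : Fin N → MvPowerSeries (Fin n) ℂ,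
    (∀ j, constantCoeff (f j) = 0) → MapsFormally ρ ρ' f → ∀ ℓ : ℕ,
    ∃ F : Fin N → MvPowerSeries (Fin n) ℂ, (∀ j, Convergent (F j)) ∧
      (∀ (j : Fin N) (α : Fin n →₀ ℕ), α.degree ≤ ℓ → coeff α (F j) = coeff α (f j)) ∧
      ∀ᶠ z in nhds (0 : Fin n → ℂ), z ∈ zeroSet ρ → (fun j => value (F j) z) ∈ zeroSet ρ') ∧
    ∃ (ρ : Fin 6 → Ser 5) (ρ' : Fin 4 → Ser 4) (f : Fin 4 → MvPowerSeries (Fin 5) ℂ),
      IsDefining ρ ∧ FiniteTypeAn ρ ∧ IsDefining ρ' ∧ IsCR ρ' ∧ FiniteTypeAn ρ' ∧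
      (∀ j, constantCoeff (f j) = 0) ∧ MapsFormally ρ ρ' f ∧
      ¬ ∃ F : Fin 4 → MvPowerSeries (Fin 5) ℂ, (∀ j, Convergent (F j)) ∧
        (∀ (j : Fin 4) (α : Fin 5 →₀ ℕ), α.degree ≤ 1 → coeff α (F j) = coeff α (f j)) ∧
        ∀ᶠ z in nhds (0 : Fin 5 → ℂ), z ∈ zeroSet ρ → (fun j => value (F j) z) ∈ zeroSet ρ' := by
  obtain ⟨ρ, ρ', f, h1, -, h2, h3, h4, h5, -, h6⟩ := NonCR.result
  exact ⟨Approx.result, ρ, ρ', f, h1, h2, h3, h4, h5, h6⟩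

end Pool.Agent.Results.MP_547e2f_an.Both
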