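import Pool.Agent.Lib.MP_547e2f_an.Example
import Pool.Agent.Results.MP_547e2f_an.Approx

/-!
Artin approximation fails for formal maps from a real analytic submanifold of finite type that is
not CR at the origin, even into a real algebraic CR submanifold of finite type.
-/

namespace Pool.Agent.Results.MP_547e2f_an.NonCR

open Pool.Agent.Lib.MP_547e2f_an Pool.Agent.Lib.MP_547e2f_an.St MvPowerSeries Cubic Example

theorem result : ∃ (ρ : Fin 6 → Ser 5) (ρ' : Fin 4 → Ser 4)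
    (f : Fin 4 → MvPowerSeries (Fin 5) ℂ), IsDefining ρ ∧ ¬ IsCR ρ ∧ FiniteTypeAn ρ ∧
      IsDefining ρ' ∧ IsCR ρ' ∧ FiniteTypeAn ρ' ∧
      (∀ i, ∃ p : MvPolynomial (Fin 4 ⊕ Fin 4) ℂ, ρ' i = p) ∧
      (∀ j, constantCoeff (f j) = 0) ∧ MapsFormally ρ ρ' f ∧
      ¬ ∃ F : Fin 4 → MvPowerSeries (Fin 5) ℂ, (∀ j, Convergent (F j)) ∧
        (∀ (j : Fin 4) (α : Fin 5 →₀ ℕ), α.degree ≤ 1 → coeff α (F j) = coeff α (f j)) ∧
        ∀ᶠ z in nhds (0 : Fin 5 → ℂ), z ∈ zeroSet ρ → (fun j => value (F j) z) ∈ zeroSet ρ' := by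
  have hf : ∀ j, constantCoeff ((![0, 0, 0, ps] : Fin 4 → _) j) = 0 := fun j => by
    fin_cases j <;> simp
  suffices h : ¬ _ from ⟨rh ph, rh ph', ![0, 0, 0, ps], defining ph, fun hc => h (Approx.result _ _
    (defining ph) hc (ft_of_an (defining ph) (finiteType ph)) (defining ph').conv _ hf mapsTo 1),
    finiteType ph, defining ph', isCR, finiteType ph', poly, hf, mapsTo, h⟩
  intro ⟨F, h1, h2, h3⟩
  have := cv_iff.1 (h1 3)
  have : Z (F 3) := ⟨by simpa using h2 3 0 (by simp)⟩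
  refine no_conv (F 3) ?_ (vanish ph _ (h3.mono fun z hz h => last_zero (hz h)))
  have h4 : cc (pd 4 ps) = 1 := by simp [ps, pd_S, Fin.sum_univ_three, pd_X]
  simp only [cc, ← coeff_zero_eq_constantCoeff_apply, coeff_pderiv] at h4 ⊢
  rw [h2 3 _ (by simp)]
  exact h4

end Pool.Agent.Results.MP_547e2f_an.NonCR
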